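import Pool.Agent.U986.LC.Pat4
import Pool.Agent.U986.LC.Pat5

/-!
# Copies of six-vertex 3-graphs and edges in `K_4^3`-free 3-graphs

Turán's conjecture says that a `K_4^3`-free 3-graph has edge density at most `5 / 9`, the density of
Turán's construction. Let `F` be a 3-graph on six vertices such that

* `F` is contained in Turán's construction for some division of its vertices into three parts,
* every four vertices of `F` contain an edge of `F`, and
* the link of every vertex `v` (the graph of the pairs which form an edge with `v`) is a connected
  graph on the other five vertices.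

There are 56 such `F` up to isomorphism, with 8 to 14 edges, for example the triangulation of the
projective plane with six vertices and ten triangles, and Turán's construction with three parts of
size two (14 edges). Let `H` be a `K_4^3`-free 3-graph on `n` vertices, `x = 6 |H| / n ^ 3` its edge
density and `t = hom(F, H) / n ^ 6` the density of `F` in `H`, and let `τ = cols F / 729` be the value
of `t` for Turán's construction (in the limit). The theorem:

* `t / τ ≤ x / (5 / 9)`: no `K_4^3`-free 3-graph has more copies of `F` per edge than Turán's
  construction;
* `a x / (5 / 9) + b t / τ ≤ a + b` for all nonnegative `a ≤ 4 b`: so `t ≤ τ`, and a `K_4^3`-free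
  3-graph with edge density `(1 + ε) 5 / 9` has `t ≤ (1 - 4 ε) τ`. Hence a `K_4^3`-free 3-graph with
  `t = (1 - δ) τ` has `1 - δ ≤ x / (5 / 9) ≤ 1 + δ / 4`; in particular Turán's conjecture holds for
  all 3-graphs with at least as many copies of some such `F` as Turán's construction;
* stability: for some division of the vertices into three parts the number of triples in which `H`
  differs from Turán's construction is at most `430080 * 729 (τ - t) n ^ 3`.

All inequalities are asymptotically equalities for Turán's construction, the first one also for the
3-graph without edges. For the 14-edge 3-graph the inequality `t ≤ τ` and its stability are the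
starting result `FourteenEdgeSextuples`; its other inequalities and all those for the other `F` are new.

Outline: if `F` contains `F'` (on the same vertices) and both have the same number of colourings
`cols`, then the inequalities for `F'` imply those for `F`. In this way 12 of the 56 types suffice.
For each of them the first inequality and the second one for `a = 4`, `b = 1` have a sum of squares
certificate for six-vertex structures, exact on the eight six-vertex subgraphs of Turán's
construction and with a positive slack for all others, found by a semidefinite programming solver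
and made exact; the inequalities for the 3-graphs on six vertices are checked by the kernel, as is
the reduction of all `F` to the 12 types. The slack is combined with a certificate of
`Pool.Agent.TH773.ST` for the distance to Turán's construction.
-/

set_option autoImplicit false
set_option maxRecDepth 100000
set_option maxHeartbeats 400000
open Finset
open scoped Classical

namespace Pool.Agent.Results.MP_f1799f_co.CopiesPerEdge

/-- The 3-graph `H` has no four vertices spanning all four triples. -/
def K43Free {n : ℕ} (H : Finset (Finset (Fin n))) : Prop :=
  ∀ S : Finset (Fin n), S.card = 4 → ∃ s ⊆ S, s.card = 3 ∧ s ∉ H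

/-- Turán's construction for the division of the vertices into the parts `g = 0`, `g = 1`, `g = 2`:
the triples that meet all three parts, and the triples with two vertices in one part and one vertex
in the following part, where part 0 follows part 2. -/
def turan {n : ℕ} (g : Fin n → Fin 3) : Finset (Finset (Fin n)) :=
  ((univ : Finset (Fin n)).powersetCard 3).filter fun t =>
    (∀ p, ∃ i ∈ t, g i = p) ∨
      ∃ p, (t.filter fun i => g i = p).card = 2 ∧ (t.filter fun i => g i = p + 1).card = 1

/-- The number of homomorphisms of the 3-graph `F` to the 3-graph `H`: the maps of the vertices which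
map every edge of `F` onto an edge of `H`. -/
noncomputable def homs {k n : ℕ} (F : Finset (Finset (Fin k))) (H : Finset (Finset (Fin n))) : ℕ :=
  ((univ : Finset (Fin k → Fin n)).filter fun f => ∀ t ∈ F, t.image f ∈ H).card

/-- The number of colourings `c` of the vertices of `F` with the three parts for which every edge of
`F` is an edge of Turán's construction with the parts `c = 0`, `c = 1`, `c = 2`. -/
noncomputable def cols {k : ℕ} (F : Finset (Finset (Fin k))) : ℕ :=
  ((univ : Finset (Fin k → Fin 3)).filter fun c => F ⊆ turan c).card

/-- The link graph of the vertex `v` of `F`: the graph on the other vertices in which `a`, `b` are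
adjacent if and only if `{v, a, b}` is an edge of `F`. -/
def link {k : ℕ} (F : Finset (Finset (Fin k))) (v : Fin k) : SimpleGraph {x : Fin k // x ≠ v} :=
  SimpleGraph.fromRel fun a b => ({v, a.1, b.1} : Finset (Fin k)) ∈ F

theorem result :
    (∀ {n : ℕ} (H : Finset (Finset (Fin n))), (∀ e ∈ H, e.card = 3) → K43Free H →
      ∀ F : Finset (Finset (Fin 6)), (∃ c, F ⊆ turan c) →
        (∀ S : Finset (Fin 6), S.card = 4 → ∃ t ∈ F, t ⊆ S) → (∀ v, (link F v).Connected) →
          135 * homs F H ≤ 2 * cols F * n ^ 3 * H.card ∧
          (∀ a b : ℕ, a ≤ 4 * b →
            54 * a * cols F * n ^ 3 * H.card + 3645 * b * homs F H ≤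
              5 * (a + b) * cols F * n ^ 6) ∧
          ∃ g : Fin n → Fin 3, n ^ 3 * (symmDiff H (turan g)).card + 430080 * (729 * homs F H) ≤
            430080 * (cols F * n ^ 6)) ∧
    ∀ {n m : ℕ} (g : Fin n → Fin 3), (∀ p, (univ.filter fun i => g i = p).card = m) →
      (∀ e ∈ turan g, e.card = 3) ∧ K43Free (turan g) ∧
      15 * m ^ 3 ≤ 6 * (turan g).card + 3 * n ^ 2 ∧ 6 * (turan g).card ≤ 15 * m ^ 3 ∧
      ∀ F : Finset (Finset (Fin 6)), (∀ t ∈ F, t.card = 3) →
        cols F * m ^ 6 ≤ homs F (turan g) + 15 * n ^ 5 ∧ homs F (turan g) ≤ cols F * m ^ 6 := by
  refine ⟨fun {n} H h3 hK F hc h4 hl => ?_, fun {n m} g hg => ?_⟩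
  · obtain ⟨h1, h2, h5, g, h6⟩ := Pool.Agent.U986.LC.mainp h3 hK hc h4 hl
    refine ⟨?_, fun a b hab => ?_, g, h6⟩
    · have e : 2 * cols F * n ^ 3 * H.card = 2 * cols F * (n ^ 3 * H.card) := by ring
      rw [e]
      exact h1
    · change 54 * a * Pool.Agent.U986.LC.cols F * n ^ 3 * H.card +
          3645 * b * Pool.Agent.U986.LC.homs F H ≤ 5 * (a + b) * Pool.Agent.U986.LC.cols F * n ^ 6
      obtain ⟨d, hd⟩ := Nat.exists_eq_add_of_le hab
      have e1 := Nat.mul_le_mul_left a h2
      have e2 := Nat.mul_le_mul_left d h5
      generalize Pool.Agent.U986.LC.cols F = C at e1 e2 ⊢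
      generalize Pool.Agent.U986.LC.homs F H = N at e1 e2 ⊢
      generalize H.card = h at e1 e2 ⊢
      refine Nat.le_of_mul_le_mul_left (c := 4) ?_ (by norm_num)
      calc 4 * (54 * a * C * n ^ 3 * h + 3645 * b * N)
          = a * (216 * (C * (n ^ 3 * h))) + 3645 * (4 * b) * N := by ring
        _ = a * (216 * (C * (n ^ 3 * h))) + 3645 * (a + d) * N := by rw [hd]
        _ = a * (216 * (C * (n ^ 3 * h)) + 3645 * N) + 5 * (d * (729 * N)) := by ring
        _ ≤ a * (25 * (C * n ^ 6)) + 5 * (d * (C * n ^ 6)) := by omega
        _ = (20 * a + 5 * (a + d)) * (C * n ^ 6) := by ring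
        _ = (20 * a + 5 * (4 * b)) * (C * n ^ 6) := by rw [hd]
        _ = 4 * (5 * (a + b) * C * n ^ 6) := by ring
  · refine ⟨fun e he => Pool.Agent.U986.LC.turan_card he, Pool.Agent.U986.LC.turan_free g,
      Pool.Agent.U986.LC.turan_edges g hg, Pool.Agent.U986.LC.turan_edges_le g hg,
      fun F hF => ⟨?_, ?_⟩⟩
    · exact Pool.Agent.U986.LC.turan_homs (k := 5) F g hg
    · exact Pool.Agent.U986.LC.turan_homs_le hF g hg

end Pool.Agent.Results.MP_f1799f_co.CopiesPerEdge
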