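import Pool.Agent.U946.LP

/-!
# Codegree sums of large exponent for the tetrahedron `K_4^3`

Let `π_p` be the largest constant with `∑_{(x,y)} d(x,y)^p = (π_p + o(1)) n^{p+2}` for `K_4^3`-free
3-graphs (`d` = codegree, sum over the ordered pairs of points; `p = 1` is the Turán problem).
We determine `π_p` for `p → ∞`: `π_p = (2/e + O(p^{-1/4} (log p)^3)) / p`, and the largest number of
pairs of codegree at least `(1 - s) n` for `s → 0`: it is `(2 s + O(s^{4/3})) n^2`.
-/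

set_option autoImplicit false
open Finset
open scoped Classical

namespace Pool.Agent.Results.MP_f1799f_co.LargeNorms

/-- all the edges have three points -/
def Uniform3 {n : ℕ} (H : Finset (Finset (Fin n))) : Prop := ∀ s ∈ H, s.card = 3

/-- no four points with all their triples in `H` -/
def K43Free {n : ℕ} (H : Finset (Finset (Fin n))) : Prop :=
  ∀ S : Finset (Fin n), S.card = 4 → ∃ s ⊆ S, s.card = 3 ∧ s ∉ H

/-- the codegree of `x` and `y` -/
noncomputable def cd {n : ℕ} (H : Finset (Finset (Fin n))) (x y : Fin n) : ℕ :=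
  (univ.filter fun z : Fin n => ({x, y, z} : Finset (Fin n)) ∈ H).card

/-- the number of the ordered pairs of codegree at least `c` -/
noncomputable def pairs {n : ℕ} (H : Finset (Finset (Fin n))) (c : ℝ) : ℕ :=
  (univ.filter fun e : Fin n × Fin n => c ≤ (cd H e.1 e.2 : ℝ)).card

/-- the sum of the `p`-th powers of the codegrees of the ordered pairs -/
noncomputable def powSum {n : ℕ} (H : Finset (Finset (Fin n))) (p : ℝ) : ℝ :=
  ∑ x : Fin n, ∑ y : Fin n, (cd H x y : ℝ) ^ p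

/-! ## The upper bounds -/

section upper

variable {n : ℕ} {H : Finset (Finset (Fin n))}

lemma ne3 {a b c : Fin n} (hc : ({a, b, c} : Finset (Fin n)).card = 3) : a ≠ b ∧ a ≠ c ∧ b ≠ c := by
  refine ⟨fun h => ?_, fun h => ?_, fun h => ?_⟩
  · subst h
    have h1 : ({a, a, c} : Finset (Fin n)) = {a, c} := by simp
    have h2 := card_le_two (a := a) (b := c)
    rw [h1] at hc
    omega
  · subst h
    have h1 : ({a, b, a} : Finset (Fin n)) = {a, b} := by
      ext z; simp only [mem_insert, mem_singleton]; tauto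
    have h2 := card_le_two (a := a) (b := b)
    rw [h1] at hc
    omega
  · subst h
    have h1 : ({a, b, b} : Finset (Fin n)) = {a, b} := by simp
    have h2 := card_le_two (a := a) (b := b)
    rw [h1] at hc
    omega

lemma toK4 (hu : Uniform3 H) (hf : K43Free H) :
    U946.LP.K4 (fun x y z : Fin n => ({x, y, z} : Finset (Fin n)) ∈ H) := by
  refine ⟨fun x y z h => ?_, fun x y z h => ?_, fun x y z w h1 h2 h3 h4 => ?_⟩
  · rwa [insert_comm]
  · rwa [pair_comm z y]
  · obtain ⟨a1, a2, a3⟩ := ne3 (hu _ h1)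
    obtain ⟨-, a4, a5⟩ := ne3 (hu _ h2)
    obtain ⟨-, -, a6⟩ := ne3 (hu _ h3)
    have hS : ({x, y, z, w} : Finset (Fin n)).card = 4 :=
      card_eq_four.2 ⟨x, y, z, w, a1, a2, a4, a3, a5, a6, rfl⟩
    obtain ⟨s, hs, hs3, hsH⟩ := hf _ hS
    obtain ⟨a, ha, has⟩ : ∃ a ∈ ({x, y, z, w} : Finset (Fin n)), a ∉ s := by
      by_contra hc
      push Not at hc
      have := card_le_card hc
      omega
    have hse : s = ({x, y, z, w} : Finset (Fin n)).erase a := by
      refine eq_of_subset_of_card_le (fun b hb => mem_erase.2 ⟨fun h => has (h ▸ hb), hs hb⟩) ?_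
      rw [card_erase_of_mem ha, hS, hs3]
    simp only [mem_insert, mem_singleton] at ha
    rcases ha with rfl | rfl | rfl | rfl
    · refine hsH ?_
      convert h4 using 1
      rw [hse]; ext b; simp only [mem_erase, mem_insert, mem_singleton]
      constructor
      · rintro ⟨b1, b2⟩; tauto
      · rintro (rfl | rfl | rfl) <;> simp [a1.symm, a2.symm, a4.symm]
    · refine hsH ?_
      convert h3 using 1
      rw [hse]; ext b; simp only [mem_erase, mem_insert, mem_singleton]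
      constructor
      · rintro ⟨b1, b2⟩; tauto
      · rintro (rfl | rfl | rfl) <;> simp [a1, a3.symm, a5.symm]
    · refine hsH ?_
      convert h2 using 1
      rw [hse]; ext b; simp only [mem_erase, mem_insert, mem_singleton]
      constructor
      · rintro ⟨b1, b2⟩; tauto
      · rintro (rfl | rfl | rfl) <;> simp [a2, a3, a6.symm]
    · refine hsH ?_
      convert h1 using 1
      rw [hse]; ext b; simp only [mem_erase, mem_insert, mem_singleton]
      constructor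
      · rintro ⟨b1, b2⟩; tauto
      · rintro (rfl | rfl | rfl) <;> simp [a4, a5, a6]

/-- the codegree and the missing points -/
lemma cd_add (x y : Fin n) :
    cd H x y + (U946.LP.M (fun x y z : Fin n => ({x, y, z} : Finset (Fin n)) ∈ H) x y).card = n := by
  unfold cd U946.LP.M
  have := card_filter_add_card_filter_not (s := (univ : Finset (Fin n)))
    (fun z : Fin n => ({x, y, z} : Finset (Fin n)) ∈ H)
  rw [card_univ, Fintype.card_fin] at this
  convert this

lemma pairs_le (hu : Uniform3 H) (hf : K43Free H) {s : ℝ} (hs : 0 < s) :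
    (pairs H ((1 - s) * n) : ℝ) ≤ (2 * s + 68 * s ^ ((4 : ℝ) / 3)) * (n : ℝ) ^ 2 := by
  set t : ℝ := s ^ ((1 : ℝ) / 3) with ht
  have ht0 : 0 < t := Real.rpow_pos_of_pos hs _
  have h3 : t ^ 3 = s := by
    rw [ht, ← Real.rpow_natCast, ← Real.rpow_mul hs.le]
    norm_num
  have h4 : t ^ 4 = s ^ ((4 : ℝ) / 3) := by
    rw [ht, ← Real.rpow_natCast, ← Real.rpow_mul hs.le]
    norm_num
  have h5 := U946.LP.count (toK4 hu hf) ht0
  rw [h3, h4, Fintype.card_fin] at h5
  refine le_trans ?_ h5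
  unfold pairs
  refine Nat.cast_le.2 (card_le_card fun e he => ?_)
  rw [mem_filter] at he ⊢
  refine ⟨mem_univ _, ?_⟩
  have h6 : ((cd H e.1 e.2 : ℕ) : ℝ) +
      (U946.LP.M (fun x y z : Fin n => ({x, y, z} : Finset (Fin n)) ∈ H) e.1 e.2).card = n := by
    exact_mod_cast cd_add e.1 e.2
  linarith [he.2]

lemma powSum_le (hu : Uniform3 H) (hf : K43Free H) {p : ℝ} (hp : 2 ≤ p) :
    powSum H p ≤ (2 / (Real.exp 1 * p) + 512 * (1 + Real.log p) ^ 3 * p ^ (-(5 : ℝ) / 4)) *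
      (n : ℝ) ^ (p + 2) := by
  have hp0 : 0 < p := by linarith
  rcases Nat.eq_zero_or_pos n with hn | hn
  · subst hn
    unfold powSum
    rw [Finset.univ_eq_empty, sum_empty]
    rw [Nat.cast_zero, Real.zero_rpow (by linarith), mul_zero]
  have : Nonempty (Fin n) := ⟨⟨0, hn⟩⟩
  have hn0 : (0 : ℝ) < n := by exact_mod_cast hn
  have hlog : 0 < Real.log p := Real.log_pos (by linarith)
  set E : Fin n → Fin n → Fin n → Prop := fun x y z => ({x, y, z} : Finset (Fin n)) ∈ H with hE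
  set r : ℝ := p ^ (-(1 : ℝ) / 4) with hr
  have hr0 : 0 < r := Real.rpow_pos_of_pos hp0 _
  have hr1 : r ≤ 1 := Real.rpow_le_one_of_one_le_of_nonpos (by linarith) (by norm_num)
  have hr4 : r ^ 4 = 1 / p := by
    rw [hr, ← Real.rpow_natCast, ← Real.rpow_mul hp0.le]
    norm_num
    rw [Real.rpow_neg_one]
  have hr5 : r ^ 5 = p ^ (-(5 : ℝ) / 4) := by
    rw [hr, ← Real.rpow_natCast, ← Real.rpow_mul hp0.le]
    norm_num
  set ℓ : ℝ := Real.log p with hℓ
  have h1 := U946.LP.expo (toK4 hu hf) (T := 2 * ℓ) (κ := r) (δ := r) hp0 (by positivity) hr0 hr0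
  rw [Fintype.card_fin] at h1
  -- the pointwise bound
  have hpt : ∀ x y : Fin n, (cd H x y : ℝ) ^ p ≤
      (n : ℝ) ^ p * Real.exp (-(p * (U946.LP.M E x y).card / n)) := by
    intro x y
    have h2 : ((cd H x y : ℕ) : ℝ) + (U946.LP.M E x y).card = n := by exact_mod_cast cd_add x y
    have h3 : (cd H x y : ℝ) ≤ n * Real.exp (-((U946.LP.M E x y).card / n)) := by
      have h4 := Real.add_one_le_exp (-(((U946.LP.M E x y).card : ℝ) / n))
      have h5 : (n : ℝ) * (-(((U946.LP.M E x y).card : ℝ) / n) + 1) = cd H x y := by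
        field_simp
        linarith
      rw [← h5]
      exact mul_le_mul_of_nonneg_left h4 hn0.le
    calc (cd H x y : ℝ) ^ p ≤ (n * Real.exp (-((U946.LP.M E x y).card / n))) ^ p :=
          Real.rpow_le_rpow (by positivity) h3 hp0.le
      _ = (n : ℝ) ^ p * Real.exp (-(p * (U946.LP.M E x y).card / n)) := by
          rw [Real.mul_rpow hn0.le (Real.exp_pos _).le, ← Real.exp_mul]
          congr 2
          ring
  have h2 : powSum H p ≤ (n : ℝ) ^ p *
      ∑ x, ∑ y, Real.exp (-(p * (U946.LP.M E x y).card / n)) := by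
    unfold powSum
    rw [mul_sum]
    refine sum_le_sum fun x _ => ?_
    rw [mul_sum]
    exact sum_le_sum fun y _ => hpt x y
  have h3 : (n : ℝ) ^ (p + 2) = (n : ℝ) ^ p * (n : ℝ) ^ 2 := by
    rw [Real.rpow_add hn0]
    norm_num
  have hexpT : Real.exp (-(2 * ℓ)) = r ^ 8 := by
    have e1 : r ^ 8 = (1 / p) ^ 2 := by rw [← hr4]; ring
    rw [e1, show -(2 * ℓ) = -ℓ + -ℓ by ring, Real.exp_add, Real.exp_neg, hℓ, Real.exp_log hp0]
    ring
  have hexpr : Real.exp r ≤ 1 + 2 * r := by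
    have h4 := Real.abs_exp_sub_one_sub_id_le (x := r) (by rw [abs_of_pos hr0]; exact hr1)
    have h5 := (abs_le.1 h4).2
    nlinarith
  have he1 : Real.exp (-1) ≤ 1 / 2 := by
    rw [Real.exp_neg]
    have h4 := Real.add_one_le_exp (1 : ℝ)
    rw [one_div]
    exact inv_anti₀ (by norm_num) (by linarith)
  have he2 : 2 / (Real.exp 1 * p) = 2 * (Real.exp (-1) * r ^ 4) := by
    rw [hr4, Real.exp_neg]
    field_simp
  rw [he2, ← hr5, h3]
  have hpi : ∀ c : ℝ, c / p = c * r ^ 4 := fun c => by rw [hr4]; ring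
  have h4 : Real.exp (-(2 * ℓ)) + 4 * (2 * ℓ) * r / p +
        2 * (Real.exp r * Real.exp (-1) / p + 32 * (2 * ℓ) ^ 3 / (r * r ^ 2 * p ^ 2)) ≤
      2 * (Real.exp (-1) * r ^ 4) + 512 * (1 + ℓ) ^ 3 * r ^ 5 := by
    have e1 : 32 * (2 * ℓ) ^ 3 / (r * r ^ 2 * p ^ 2) = 256 * ℓ ^ 3 * r ^ 5 := by
      have e2 : p = 1 / r ^ 4 := by rw [hr4]; field_simp
      rw [e2]
      field_simp
      ring
    rw [e1, hexpT, hpi, hpi]
    have e3 : r ^ 8 ≤ r ^ 5 := pow_le_pow_of_le_one hr0.le hr1 (by norm_num)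
    have e4 : Real.exp r * Real.exp (-1) * r ^ 4 ≤ Real.exp (-1) * r ^ 4 + r ^ 5 := by
      have e5 : Real.exp r * Real.exp (-1) ≤ Real.exp (-1) + r := by
        have := Real.exp_pos (-1 : ℝ)
        nlinarith
      calc Real.exp r * Real.exp (-1) * r ^ 4 ≤ (Real.exp (-1) + r) * r ^ 4 := by gcongr
        _ = _ := by ring
    have e6 : 0 ≤ ℓ * r ^ 5 := by positivity
    have e7 : 0 ≤ ℓ ^ 2 * r ^ 5 := by positivity
    have e8 : 0 < r ^ 5 := by positivity
    nlinarith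
  calc powSum H p ≤ (n : ℝ) ^ p * ∑ x, ∑ y, Real.exp (-(p * (U946.LP.M E x y).card / n)) := h2
    _ ≤ (n : ℝ) ^ p * ((n : ℝ) ^ 2 * (2 * (Real.exp (-1) * r ^ 4) + 512 * (1 + ℓ) ^ 3 * r ^ 5)) := by
        refine mul_le_mul_of_nonneg_left (h1.trans ?_) (by positivity)
        exact mul_le_mul_of_nonneg_left h4 (by positivity)
    _ = _ := by ring

end upper

/-! ## The construction -/

section lower

variable {n : ℕ}

/-- the triples with exactly one of the first `b` points -/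
noncomputable def star (n b : ℕ) : Finset (Finset (Fin n)) :=
  univ.filter fun s => s.card = 3 ∧ (s.filter fun x => x.val < b).card = 1

lemma star_uniform (n b : ℕ) : Uniform3 (star n b) := fun _ hs => (mem_filter.1 hs).2.1

lemma star_free (n b : ℕ) : K43Free (star n b) := by
  intro S hS
  by_contra hc
  push Not at hc
  have hc' : ∀ a ∈ S, ((S.erase a).filter fun x => x.val < b).card = 1 := fun a ha =>
    (mem_filter.1 (hc _ (erase_subset a S) (by rw [card_erase_of_mem ha, hS]))).2.2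
  have hne : S.Nonempty := card_pos.1 (by omega)
  obtain ⟨a0, ha0⟩ := hne
  have h1 := hc' a0 ha0
  obtain ⟨a, ha⟩ := card_pos.1 (by rw [h1]; norm_num : 0 < ((S.erase a0).filter fun x => x.val < b).card)
  rw [mem_filter, mem_erase] at ha
  have hj : (S.filter fun x => x.val < b).card = 2 := by
    have h2 := hc' a ha.1.2
    rw [filter_erase, card_erase_of_mem (mem_filter.2 ⟨ha.1.2, ha.2⟩)] at h2
    omega
  obtain ⟨c, hcS, hcb⟩ : ∃ c ∈ S, ¬ c.val < b := by
    by_contra hcc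
    push Not at hcc
    rw [filter_true_of_mem hcc] at hj
    omega
  have h3 := hc' c hcS
  rw [filter_erase, erase_eq_of_notMem (by
    intro h
    exact hcb (mem_filter.1 h).2)] at h3
  omega

lemma card_low {b : ℕ} (hb : b ≤ n) : (univ.filter fun x : Fin n => x.val < b).card = b := by
  rw [Fin.card_filter_val_lt, min_eq_right hb]

lemma card_high {b : ℕ} (hb : b ≤ n) : (univ.filter fun x : Fin n => b ≤ x.val).card = n - b := by
  have h1 := card_filter_add_card_filter_not (s := (univ : Finset (Fin n))) (fun x : Fin n => x.val < b)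
  rw [card_low hb, card_univ, Fintype.card_fin] at h1
  simp only [not_lt] at h1
  omega

lemma cd_star {b : ℕ} (hb : b ≤ n) {x y : Fin n} (hx : x.val < b) (hy : b ≤ y.val) :
    n - b - 1 ≤ cd (star n b) x y := by
  have h1 : ((univ.filter fun z : Fin n => b ≤ z.val).erase y).card = n - b - 1 := by
    rw [card_erase_of_mem (by simpa using hy), card_high hb]
  rw [← h1]
  unfold cd
  refine card_le_card fun z hz => ?_
  rw [mem_erase, mem_filter] at hz
  obtain ⟨hzy, -, hz⟩ := hz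
  refine mem_filter.2 ⟨mem_univ _, mem_filter.2 ⟨mem_univ _, ?_, ?_⟩⟩
  · refine card_eq_three.2 ⟨x, y, z, ?_, ?_, Ne.symm hzy, rfl⟩
    · rintro rfl; omega
    · rintro rfl; omega
  · have : (({x, y, z} : Finset (Fin n)).filter fun x => x.val < b) = {x} := by
      ext w
      simp only [mem_filter, mem_insert, mem_singleton]
      constructor
      · rintro ⟨rfl | rfl | rfl, h⟩
        · rfl
        · omega
        · omega
      · rintro rfl
        exact ⟨Or.inl rfl, hx⟩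
    rw [this, card_singleton]

lemma cd_comm (H : Finset (Finset (Fin n))) (x y : Fin n) : cd H x y = cd H y x := by
  unfold cd
  congr 1
  ext z
  rw [mem_filter, mem_filter, insert_comm]

/-- the pairs with exactly one of the first `b` points -/
noncomputable def mixed (n b : ℕ) : Finset (Fin n × Fin n) :=
  ((univ.filter fun x : Fin n => x.val < b) ×ˢ (univ.filter fun x : Fin n => b ≤ x.val)) ∪
  ((univ.filter fun x : Fin n => b ≤ x.val) ×ˢ (univ.filter fun x : Fin n => x.val < b))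

lemma card_mixed {b : ℕ} (hb : b ≤ n) : (mixed n b).card = 2 * (b * (n - b)) := by
  unfold mixed
  rw [card_union_of_disjoint, card_product, card_product, card_low hb, card_high hb]
  · ring
  · rw [disjoint_left]
    rintro ⟨x, y⟩ h1 h2
    rw [mem_product, mem_filter, mem_filter] at h1 h2
    have := h1.1.2
    have := h2.1.2
    simp only at *
    omega

lemma cd_mixed {b : ℕ} (hb : b ≤ n) (e : Fin n × Fin n) (he : e ∈ mixed n b) :
    n - b - 1 ≤ cd (star n b) e.1 e.2 := by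
  unfold mixed at he
  rw [mem_union, mem_product, mem_product, mem_filter, mem_filter, mem_filter, mem_filter] at he
  rcases he with he | he
  · exact cd_star hb he.1.2 he.2.2
  · rw [cd_comm]
    exact cd_star hb he.2.2 he.1.2

lemma pairs_ge {s ε : ℝ} (hs : 0 < s) (hs1 : s < 1) (hε : 0 < ε) :
    ∃ N : ℕ, ∀ n ≥ N, ∃ H : Finset (Finset (Fin n)), Uniform3 H ∧ K43Free H ∧
      (2 * s * (1 - s) - ε) * (n : ℝ) ^ 2 ≤ pairs H ((1 - s) * n) := by
  refine ⟨⌈4 / ε⌉₊ + ⌈1 / s⌉₊, fun n hn => ?_⟩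
  have hn1 : 4 / ε ≤ n := (Nat.le_ceil _).trans (by exact_mod_cast (by omega : ⌈4 / ε⌉₊ ≤ n))
  have hn2 : 1 / s ≤ n := (Nat.le_ceil _).trans (by exact_mod_cast (by omega : ⌈1 / s⌉₊ ≤ n))
  have hn0 : (0 : ℝ) < n := lt_of_lt_of_le (by positivity) hn2
  have hn3 : 4 ≤ ε * n := by
    rw [div_le_iff₀ hε] at hn1
    linarith
  have hn4 : 1 ≤ s * n := by
    rw [div_le_iff₀ hs] at hn2
    linarith
  have hf1 : 1 ≤ ⌊s * n⌋₊ := Nat.le_floor (by exact_mod_cast hn4)
  set b : ℕ := ⌊s * n⌋₊ - 1 with hb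
  have hb1 : (b : ℝ) + 1 ≤ s * n := by
    have h1 : b + 1 = ⌊s * n⌋₊ := by omega
    have h2 := Nat.floor_le (by positivity : 0 ≤ s * (n : ℝ))
    rw [← h1] at h2
    exact_mod_cast h2
  have hb2 : s * n - 2 ≤ (b : ℝ) := by
    have h1 : b + 1 = ⌊s * n⌋₊ := by omega
    have h2 := Nat.lt_floor_add_one (s * (n : ℝ))
    rw [← h1] at h2
    push_cast at h2
    linarith
  have hbn : b + 1 ≤ n := by
    have : (b : ℝ) + 1 ≤ n := by nlinarith
    exact_mod_cast this
  refine ⟨star n b, star_uniform n b, star_free n b, ?_⟩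
  have h1 : (mixed n b).card ≤ pairs (star n b) ((1 - s) * n) := by
    unfold pairs
    refine card_le_card fun e he => mem_filter.2 ⟨mem_univ _, ?_⟩
    have h2 := cd_mixed (by omega) e he
    have h3 : ((n - b - 1 : ℕ) : ℝ) = n - b - 1 := by
      rw [Nat.cast_sub (by omega), Nat.cast_sub (by omega), Nat.cast_one]
    have h4 : ((n - b - 1 : ℕ) : ℝ) ≤ cd (star n b) e.1 e.2 := by exact_mod_cast h2
    rw [h3] at h4
    linarith
  rw [card_mixed (by omega)] at h1
  have h2 : (2 : ℝ) * (b * (n - b)) ≤ pairs (star n b) ((1 - s) * n) := by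
    have h3 : ((2 * (b * (n - b)) : ℕ) : ℝ) ≤ pairs (star n b) ((1 - s) * n) := by exact_mod_cast h1
    push_cast [Nat.cast_sub (by omega : b ≤ n)] at h3
    exact h3
  refine le_trans ?_ h2
  have hb0 : (0 : ℝ) ≤ b := by positivity
  have h3 : (1 - s) * n ≤ n - b := by linarith
  have h4 : 0 ≤ (1 - s) * n := by nlinarith
  have h5 : (b : ℝ) * ((1 - s) * n) ≤ b * (n - b) := mul_le_mul_of_nonneg_left h3 hb0
  have h6 : (s * n - 2) * ((1 - s) * n) ≤ b * ((1 - s) * n) := mul_le_mul_of_nonneg_right hb2 h4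
  nlinarith

/-- `(1 - 1/p)^(p+1) ≥ (1 - 2/p) / e` -/
lemma rpow_lower {p : ℝ} (hp : 2 ≤ p) :
    Real.exp (-1) * (1 - 2 / p) ≤ (1 - 1 / p) * (1 - 1 / p) ^ p := by
  have hp0 : 0 < p := by linarith
  have h1 : (0 : ℝ) < 1 - 1 / p := by
    have : 1 / p ≤ 1 / 2 := one_div_le_one_div_of_le (by norm_num) hp
    linarith
  have h2 : Real.exp (-1) ≤ (1 - 1 / p) ^ (p - 1) := by
    rw [Real.rpow_def_of_pos h1]
    refine Real.exp_le_exp.2 ?_
    have h3 := Real.one_sub_inv_le_log_of_pos h1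
    have h4 : 1 - (1 - 1 / p)⁻¹ = -(1 / (p - 1)) := by
      have : p - 1 ≠ 0 := by linarith
      have h5 : 1 - 1 / p = (p - 1) / p := by field_simp
      rw [h5, inv_div]
      field_simp
      ring
    rw [h4] at h3
    have h5 : 0 < p - 1 := by linarith
    calc (-1 : ℝ) = -(1 / (p - 1)) * (p - 1) := by field_simp
      _ ≤ Real.log (1 - 1 / p) * (p - 1) := by gcongr
  have h3 : (1 - 1 / p) ^ p = (1 - 1 / p) ^ (p - 1) * (1 - 1 / p) := by
    rw [← Real.rpow_add_one h1.ne']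
    congr 1
    ring
  rw [h3]
  have h4 : Real.exp (-1) * (1 - 2 / p) ≤ Real.exp (-1) * (1 - 1 / p) ^ 2 := by
    refine mul_le_mul_of_nonneg_left ?_ (Real.exp_pos _).le
    have : (1 - 1 / p) ^ 2 = 1 - 2 / p + (1 / p) ^ 2 := by ring
    rw [this]
    have := sq_nonneg (1 / p)
    linarith
  have h5 : Real.exp (-1) * (1 - 1 / p) ^ 2 ≤ (1 - 1 / p) ^ (p - 1) * (1 - 1 / p) ^ 2 := by
    gcongr
  calc Real.exp (-1) * (1 - 2 / p) ≤ (1 - 1 / p) ^ (p - 1) * (1 - 1 / p) ^ 2 := h4.trans h5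
    _ = _ := by ring

lemma powSum_star {p : ℝ} (hp0 : 0 < p) {b : ℕ} (hbn : b + 1 ≤ n) :
    (2 * (b * (n - b)) : ℝ) * ((n : ℝ) - b - 1) ^ p ≤ powSum (star n b) p := by
  have h3 : ((n - b - 1 : ℕ) : ℝ) = n - b - 1 := by
    rw [Nat.cast_sub (by omega), Nat.cast_sub (by omega), Nat.cast_one]
  have hb2 : (b : ℝ) + 1 ≤ n := by exact_mod_cast hbn
  have e1 : powSum (star n b) p = ∑ e : Fin n × Fin n, (cd (star n b) e.1 e.2 : ℝ) ^ p := by
    unfold powSum
    rw [Fintype.sum_prod_type]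
  have hcm : ((mixed n b).card : ℝ) = 2 * (b * (n - b)) := by
    rw [card_mixed (by omega)]
    push_cast [Nat.cast_sub (by omega : b ≤ n)]
    ring
  have e2 : (2 * (b * (n - b)) : ℝ) * ((n : ℝ) - b - 1) ^ p = ∑ _e ∈ mixed n b, ((n : ℝ) - b - 1) ^ p := by
    rw [sum_const, nsmul_eq_mul, hcm]
  have e3 : ∑ _e ∈ mixed n b, ((n : ℝ) - b - 1) ^ p ≤
      ∑ e ∈ mixed n b, (cd (star n b) e.1 e.2 : ℝ) ^ p := by
    refine sum_le_sum fun e he => Real.rpow_le_rpow (by linarith) ?_ hp0.le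
    have h5 := cd_mixed (by omega) e he
    have h6 : ((n - b - 1 : ℕ) : ℝ) ≤ cd (star n b) e.1 e.2 := Nat.cast_le.2 h5
    rw [h3] at h6
    exact h6
  have e4 : ∑ e ∈ mixed n b, (cd (star n b) e.1 e.2 : ℝ) ^ p ≤
      ∑ e : Fin n × Fin n, (cd (star n b) e.1 e.2 : ℝ) ^ p :=
    sum_le_sum_of_subset_of_nonneg (subset_univ _) fun e _ _ => Real.rpow_nonneg (Nat.cast_nonneg _) _
  rw [e1, e2]
  exact e3.trans e4

lemma powSum_ge {p ε : ℝ} (hp : 2 ≤ p) (hε : 0 < ε) :
    ∃ N : ℕ, ∀ n ≥ N, ∃ H : Finset (Finset (Fin n)), Uniform3 H ∧ K43Free H ∧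
      (2 / (Real.exp 1 * p) - 4 / (Real.exp 1 * p ^ 2) - ε) * (n : ℝ) ^ (p + 2) ≤ powSum H p := by
  have hp0 : 0 < p := by linarith
  have h1 : (0 : ℝ) < 1 - 1 / p := by
    have : 1 / p ≤ 1 / 2 := one_div_le_one_div_of_le (by norm_num) hp
    linarith
  -- the limit
  have hb : Filter.Tendsto (fun n : ℕ => (⌊(1 / p) * (n : ℝ)⌋₊ : ℝ) / (n : ℝ)) Filter.atTop (nhds (1 / p)) :=
    (tendsto_nat_floor_mul_div_atTop (by positivity : 0 ≤ 1 / p)).comp tendsto_natCast_atTop_atTop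
  have hinv : Filter.Tendsto (fun n : ℕ => 1 / (n : ℝ)) Filter.atTop (nhds 0) :=
    tendsto_one_div_atTop_nhds_zero_nat
  have hlim : Filter.Tendsto (fun n : ℕ => 2 * ((⌊(1 / p) * (n : ℝ)⌋₊ : ℝ) / (n : ℝ)) *
      (1 - (⌊(1 / p) * (n : ℝ)⌋₊ : ℝ) / (n : ℝ)) *
      (1 - (⌊(1 / p) * (n : ℝ)⌋₊ : ℝ) / (n : ℝ) - 1 / (n : ℝ)) ^ p) Filter.atTop
      (nhds (2 * (1 / p) * (1 - 1 / p) * (1 - 1 / p - 0) ^ p)) := by
    refine ((hb.const_mul 2).mul (hb.const_sub 1)).mul ?_
    exact ((hb.const_sub 1).sub hinv).rpow_const (Or.inl (by linarith))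
  have hval : 2 / (Real.exp 1 * p) - 4 / (Real.exp 1 * p ^ 2) ≤
      2 * (1 / p) * (1 - 1 / p) * (1 - 1 / p - 0) ^ p := by
    have h2 := rpow_lower hp
    rw [sub_zero]
    have e1 : 2 / (Real.exp 1 * p) - 4 / (Real.exp 1 * p ^ 2) =
        2 * (1 / p) * (Real.exp (-1) * (1 - 2 / p)) := by
      rw [Real.exp_neg]
      field_simp
      ring
    rw [e1, mul_assoc (2 * (1 / p))]
    exact mul_le_mul_of_nonneg_left h2 (by positivity)
  have hev := hlim.eventually (lt_mem_nhds (show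
    2 / (Real.exp 1 * p) - 4 / (Real.exp 1 * p ^ 2) - ε <
      2 * (1 / p) * (1 - 1 / p) * (1 - 1 / p - 0) ^ p by linarith))
  obtain ⟨N, hN⟩ := Filter.eventually_atTop.1 hev
  refine ⟨N + 4, fun n hn => ?_⟩
  have hn4 : 4 ≤ n := by omega
  have hn0 : (0 : ℝ) < n := by exact_mod_cast (by omega : 0 < n)
  have h2 := hN n (by omega)
  set b : ℕ := ⌊(1 / p) * (n : ℝ)⌋₊ with hbd
  have hb1 : (b : ℝ) ≤ (1 / p) * n := Nat.floor_le (by positivity)
  have hb2 : (b : ℝ) + 1 ≤ n := by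
    have h3 : 1 / p ≤ 1 / 2 := one_div_le_one_div_of_le (by norm_num) hp
    have h4 : (4 : ℝ) ≤ n := by exact_mod_cast hn4
    nlinarith
  have hbn : b + 1 ≤ n := by exact_mod_cast hb2
  refine ⟨star n b, star_uniform n b, star_free n b, ?_⟩
  have h4 := powSum_star hp0 hbn
  clear_value b
  refine le_trans ?_ h4
  have h5 : (n : ℝ) ^ (p + 2) = (n : ℝ) ^ p * (n : ℝ) ^ 2 := by
    rw [Real.rpow_add hn0]
    norm_num
  have h6 : ((n : ℝ) - b - 1) ^ p = (n : ℝ) ^ p * (1 - (b : ℝ) / n - 1 / n) ^ p := by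
    have h7 : 0 ≤ 1 - (b : ℝ) / n - 1 / n := by
      have : 1 - (b : ℝ) / n - 1 / n = (n - b - 1) / n := by field_simp
      rw [this]
      exact div_nonneg (by linarith) hn0.le
    rw [← Real.mul_rpow hn0.le h7]
    congr 1
    field_simp
  calc (2 / (Real.exp 1 * p) - 4 / (Real.exp 1 * p ^ 2) - ε) * (n : ℝ) ^ (p + 2)
      ≤ (2 * ((b : ℝ) / n) * (1 - (b : ℝ) / n) * (1 - (b : ℝ) / n - 1 / n) ^ p) * (n : ℝ) ^ (p + 2) := by
        refine mul_le_mul_of_nonneg_right h2.le (by positivity)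
    _ = (2 * (b * (n - b)) : ℝ) * ((n : ℝ) - b - 1) ^ p := by
        rw [h5, h6]
        field_simp

end lower

/-- **codegrees of `K_4^3`-free 3-graphs.** (1) At most `(2 s + 68 s^{4/3}) n^2` ordered pairs have
codegree at least `(1 - s) n`, and (2) some 3-graphs have `(2 s (1 - s) - ε) n^2` such pairs.
(3) For all `p ≥ 2` the sum of the `p`-th powers of the codegrees is at most
`(2/(e p) + 512 (1 + log p)^3 p^{-5/4}) n^{p+2}`, and (4) it is at least
`(2/(e p) - 4/(e p^2) - ε) n^{p+2}` for some 3-graphs. -/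
theorem result :
    (∀ (n : ℕ) (H : Finset (Finset (Fin n))), Uniform3 H → K43Free H → ∀ s : ℝ, 0 < s →
      (pairs H ((1 - s) * n) : ℝ) ≤ (2 * s + 68 * s ^ ((4 : ℝ) / 3)) * (n : ℝ) ^ 2) ∧
    (∀ s ε : ℝ, 0 < s → s < 1 → 0 < ε → ∃ N : ℕ, ∀ n ≥ N, ∃ H : Finset (Finset (Fin n)),
      Uniform3 H ∧ K43Free H ∧
        (2 * s * (1 - s) - ε) * (n : ℝ) ^ 2 ≤ pairs H ((1 - s) * n)) ∧
    (∀ (n : ℕ) (H : Finset (Finset (Fin n))), Uniform3 H → K43Free H → ∀ p : ℝ, 2 ≤ p →
      powSum H p ≤ (2 / (Real.exp 1 * p) + 512 * (1 + Real.log p) ^ 3 * p ^ (-(5 : ℝ) / 4)) *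
        (n : ℝ) ^ (p + 2)) ∧
    (∀ p ε : ℝ, 2 ≤ p → 0 < ε → ∃ N : ℕ, ∀ n ≥ N, ∃ H : Finset (Finset (Fin n)),
      Uniform3 H ∧ K43Free H ∧
        (2 / (Real.exp 1 * p) - 4 / (Real.exp 1 * p ^ 2) - ε) * (n : ℝ) ^ (p + 2) ≤ powSum H p) :=
  ⟨fun _ _ hu hf _ hs => pairs_le hu hf hs, fun _ _ hs hs1 hε => pairs_ge hs hs1 hε,
    fun _ _ hu hf _ hp => powSum_le hu hf hp, fun _ _ hp hε => powSum_ge hp hε⟩

end Pool.Agent.Results.MP_f1799f_co.LargeNorms
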