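import Pool.Agent.U986.LC.Main4

/-!
# Copies of a connected four-vertex graph in the links of a `K_4^3`-free 3-graph

The link of a vertex `v` of a 3-graph `H` is the graph of the pairs that form an edge with `v`. The
cone over a graph `L` has an apex whose link is `L`, and its homomorphisms to `H` are the
homomorphisms of `L` to the links of the vertices of `H`. Turán's conjecture says that a
`K_4^3`-free 3-graph has edge density at most `5 / 9`, the density of Turán's construction. The
theorem: for every connected graph `L` on four vertices (the star, the path, the triangle with a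
pendant edge, the four-cycle, the diamond and the complete graph) a `K_4^3`-free 3-graph cannot have
more edges than Turán's construction without losing copies of `L` in its links, and the other way
round. Let `x = 6 |H| / n ^ 3` be the edge density of `H` and `t = hom(cone L, H) / n ^ 5` the density
of `L` in the links, and `τ = cols (cone L) / 243` the value of `t` for Turán's construction. Then for
every real number `s` between 1 and 2

`x + s t ≤ 5 / 9 + s τ`,

and Turán's construction attains equality asymptotically. For `s = 1` there is stability: for some
division of the vertices into three parts the number of triples in which `H` differs from Turán's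
construction is at most `322560 * 243 (5 / 9 + τ - x - t) n ^ 3`. The values of `243 τ` are 51 for the
star, 48 for the path, 24 for the triangle with a pendant edge, 39 for the four-cycle, 18 for the
diamond and 15 for the complete graph.

Consequently a `K_4^3`-free 3-graph with edge density `5 / 9 + ε` has `t ≤ τ - ε` for each of these
six graphs, and one whose links have `L`-density `τ + ε` has edge density at most `5 / 9 - 2 ε`.

Outline: for each of the six graphs and for `s = 1` and `s = 2` a sum of squares certificate for
six-vertex structures, exact on the eight six-vertex subgraphs of Turán's construction and with a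
positive slack for all others, found by a semidefinite programming solver and made exact; the
inequalities for the 3-graphs on six vertices are checked by the kernel. The slack is combined with a
certificate of `Pool.Agent.TH773.ST` for the distance to Turán's construction.
-/

set_option autoImplicit false
set_option maxRecDepth 100000
set_option maxHeartbeats 4000000
open Finset
open scoped Classical

namespace Pool.Agent.Results.MP_f1799f_co.LinkCopiesFour

/-- The 3-graph `H` has no four vertices spanning all four triples. -/
def K43Free {n : ℕ} (H : Finset (Finset (Fin n))) : Prop :=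
  ∀ S : Finset (Fin n), S.card = 4 → ∃ s ⊆ S, s.card = 3 ∧ s ∉ H

/-- Turán's construction for the division of the vertices into the parts `g = 0`, `g = 1`, `g = 2`:
the triples that meet all three parts, and the triples with two vertices in one part and one vertex
in the following part, where part 0 follows part 2. -/
def turan {n : ℕ} (g : Fin n → Fin 3) : Finset (Finset (Fin n)) :=
  ((univ : Finset (Fin n)).powersetCard 3).filter fun t =>
    (∀ p, ∃ i ∈ t, g i = p) ∨
      ∃ p, (t.filter fun i => g i = p).card = 2 ∧ (t.filter fun i => g i = p + 1).card = 1

/-- The number of homomorphisms of the 3-graph `F` to the 3-graph `H`: the maps of the vertices which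
map every edge of `F` onto an edge of `H`. -/
noncomputable def homs {k n : ℕ} (F : Finset (Finset (Fin k))) (H : Finset (Finset (Fin n))) : ℕ :=
  ((univ : Finset (Fin k → Fin n)).filter fun f => ∀ t ∈ F, t.image f ∈ H).card

/-- The number of colourings `c` of the vertices of `F` with the three parts for which every edge of
`F` is an edge of Turán's construction with the parts `c = 0`, `c = 1`, `c = 2`. -/
noncomputable def cols {k : ℕ} (F : Finset (Finset (Fin k))) : ℕ :=
  ((univ : Finset (Fin k → Fin 3)).filter fun c => F ⊆ turan c).card

/-- The cone over the graph `L` on `0, …, k - 1`: the 3-graph on `0, …, k` whose edges are the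
triples `{0, i + 1, j + 1}` for the edges `{i, j}` of `L`. A homomorphism of the cone to a 3-graph `H`
is a vertex `v` of `H` together with a homomorphism of `L` to the link graph of `v`. -/
noncomputable def cone {k : ℕ} (L : SimpleGraph (Fin k)) : Finset (Finset (Fin (k + 1))) :=
  (univ : Finset (Finset (Fin (k + 1)))).filter fun e => ∃ i j, L.Adj i j ∧ e = {0, i.succ, j.succ}

theorem result :
    (∀ {n : ℕ} (H : Finset (Finset (Fin n))), (∀ e ∈ H, e.card = 3) → K43Free H →
      ∀ L : SimpleGraph (Fin 4), L.Connected →
        (∀ a b : ℕ, a ≤ b → b ≤ 2 * a →
          243 * (b * homs (cone L) H + a * (6 * n ^ 2 * H.card)) ≤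
            (b * cols (cone L) + 135 * a) * n ^ 5) ∧
        ∃ g : Fin n → Fin 3, n ^ 2 * (symmDiff H (turan g)).card +
          322560 * (243 * (homs (cone L) H + 6 * n ^ 2 * H.card)) ≤
            322560 * ((cols (cone L) + 135) * n ^ 5)) ∧
    ∀ {n m : ℕ} (g : Fin n → Fin 3), (∀ p, (univ.filter fun i => g i = p).card = m) →
      (∀ e ∈ turan g, e.card = 3) ∧ K43Free (turan g) ∧
      15 * m ^ 3 ≤ 6 * (turan g).card + 3 * n ^ 2 ∧
      ∀ L : SimpleGraph (Fin 4), cols (cone L) * m ^ 5 ≤ homs (cone L) (turan g) + 10 * n ^ 4 := by
  refine ⟨fun {n} H h3 hK L hL => ?_, fun {n m} g hg => ?_⟩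
  · obtain ⟨h1, h2, g, h4⟩ := Pool.Agent.U986.LC.main4 h3 hK hL
    refine ⟨fun a b hab hba => ?_, g, ?_⟩
    · change 243 * (b * Pool.Agent.U986.LC.homs (Pool.Agent.U986.LC.cone L) H +
        a * (6 * n ^ 2 * H.card)) ≤
        (b * Pool.Agent.U986.LC.cols (Pool.Agent.U986.LC.cone L) + 135 * a) * n ^ 5
      obtain ⟨c, rfl⟩ := Nat.exists_eq_add_of_le hab
      obtain ⟨d, hd⟩ := Nat.exists_eq_add_of_le hba
      obtain rfl : a = c + d := by omega
      have e1 := Nat.mul_le_mul_left d h1
      have e2 := Nat.mul_le_mul_left c h2
      nlinarith [e1, e2]
    · have e : 6 * n ^ 2 * H.card = 6 * (n ^ 2 * H.card) := by ring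
      rw [e]
      exact h4
  · refine ⟨fun e he => Pool.Agent.U986.LC.turan_card he, Pool.Agent.U986.LC.turan_free g,
      Pool.Agent.U986.LC.turan_edges g hg, fun L => ?_⟩
    have h := Pool.Agent.U986.LC.turan_homs (k := 4) (Pool.Agent.U986.LC.cone L) g hg
    exact h

end Pool.Agent.Results.MP_f1799f_co.LinkCopiesFour
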