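import Pool.Agent.U646.LC.Robust
import Pool.Agent.Results.MP_466853_co.ColouredTournaments
import Pool.Agent.H122R2.FdF.TaskH2

/-!
# Turán's (3,4)-problem for local colourings and for rainbow triangles

Every vertex `x` gives a colour `col x y` to every other vertex `y` (any number of colours, no relation
between `col x y` and `col y x`). Call a triple an edge if none of its vertices gives the same colour to the
two others. Two vertices `x`, `y` are torn if `x` puts some `a` in the class of `y` which `y` does not put in
the class of `x`, and `y` puts some `b` in the class of `x` which `x` does not put in the class of `y`. It is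
shown that a `K_4^3`-free 3-graph of this kind without torn pairs has at most as many edges as Turán's
construction, for every number of vertices, and that the density is at most `5/9 + ε` if at most `δ n^4`
sets of four vertices span all four triples or contain a torn pair with its two witnesses.

Two special cases. If the pairs of vertices are coloured such that each colour class is a graph without
induced paths or cycles with four vertices (the comparability graph of a rooted forest), and if no four
vertices have only rainbow triangles, then the number of rainbow triangles is at most the number of edges of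
Turán's construction, and this is the exact maximum for every number of vertices. And the 3-graph of the
Fon-der-Flaass construction has at most as many edges as Turán's construction, for every number of vertices,
if the graph of the non-adjacent pairs has no induced path or cycle with four vertices; this includes the
oriented complete multipartite graphs.

Proof: a pair of vertices without tear is given to one of its two vertices, that with the larger class. If
there are no torn pairs then every triple which is not an edge has a vertex which gives the same colour to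
the two others and owns the pairs with both. This reduces the upper bound to the theorem on arc-coloured
tournaments in the starting library (`Pool.Agent.N439.CT.tournament`). The second statement follows by
averaging over sets of bounded size.
-/

set_option autoImplicit false
open Finset
open scoped Classical

namespace Pool.Agent.Results.MP_f1799f_co.RainbowTriangles

/-- The pair `x`, `y` is torn by the local colouring `col`, with witnesses `a` and `b`. -/
def Torn {n : ℕ} (col : Fin n → Fin n → ℕ) (x y a b : Fin n) : Prop :=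
  x ≠ y ∧ a ≠ x ∧ a ≠ y ∧ b ≠ x ∧ b ≠ y ∧
    col x a = col x y ∧ col y a ≠ col y x ∧ col y b = col y x ∧ col x b ≠ col x y

/-- The 3-graph of the local colouring `col`: the triples in which no vertex gives the same colour to
the two others. If `col` is symmetric (a colouring of the pairs), these are the rainbow triangles. -/
noncomputable def graph {n : ℕ} (col : Fin n → Fin n → ℕ) : Finset (Finset (Fin n)) :=
  (univ.powersetCard 3).filter fun s : Finset (Fin n) =>
    ∀ x ∈ s, ∀ y ∈ s, ∀ z ∈ s, x ≠ y → x ≠ z → y ≠ z → col x y ≠ col x z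

/-- The 3-graph `H` has no four vertices spanning all four triples. -/
def K43Free {n : ℕ} (H : Finset (Finset (Fin n))) : Prop :=
  ∀ S : Finset (Fin n), S.card = 4 → ∃ s ⊆ S, s.card = 3 ∧ s ∉ H

/-- Turán's number `f(n)`: `f(3s) = s(s-1)(2s-1)`, `f(3s+1) = s^2(2s-1)`, `f(3s+2) = s^2(2s+1)`.
Turán's construction has `C(n,3) - f(n)` edges. -/
def turan (n : ℕ) : ℕ :=
  if n % 3 = 0 then (n / 3) * (n / 3 - 1) * (2 * (n / 3) - 1)
  else if n % 3 = 1 then (n / 3) ^ 2 * (2 * (n / 3) - 1)
  else (n / 3) ^ 2 * (2 * (n / 3) + 1)

/-- The number of sets of four vertices which contain a torn pair with its two witnesses or span all four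
triples of the 3-graph. -/
noncomputable def bad {n : ℕ} (col : Fin n → Fin n → ℕ) : ℕ :=
  ((univ.powersetCard 4).filter fun Q : Finset (Fin n) =>
    (∃ x ∈ Q, ∃ y ∈ Q, ∃ a ∈ Q, ∃ b ∈ Q, Torn col x y a b) ∨
      ∀ s ⊆ Q, s.card = 3 → s ∈ graph col).card

/-- The pairs of some colour of the colouring `c` form a graph with an induced path `a x y b` or an induced
cycle `a x y b` (it does not matter whether `a b` has the colour). -/
def MonoPathOrCycle {n : ℕ} (c : Fin n → Fin n → ℕ) : Prop :=
  ∃ a x y b : Fin n, a ≠ x ∧ a ≠ y ∧ a ≠ b ∧ x ≠ y ∧ x ≠ b ∧ y ≠ b ∧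
    c a x = c x y ∧ c y b = c x y ∧ c a y ≠ c x y ∧ c x b ≠ c x y

/-- `R` is (the arc relation of) an oriented graph: no loops, and at most one arc between two
vertices. -/
def IsOriented {n : ℕ} (R : Fin n → Fin n → Prop) : Prop := ∀ x y, R x y → ¬ R y x

/-- `R` has no induced oriented 4-cycle `a → b → c → d → a`. -/
def NoInducedC4 {n : ℕ} (R : Fin n → Fin n → Prop) : Prop :=
  ¬ ∃ a b c d : Fin n, R a b ∧ R b c ∧ R c d ∧ R d a ∧ ¬ R a c ∧ ¬ R c a ∧ ¬ R b d ∧ ¬ R d b

/-- The `K_4^3`-free 3-graph of the Fon-der-Flaass construction: the triples in which no vertex is joined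
by an arc to neither of the two others and no vertex sends arcs to both others. -/
noncomputable def construction {n : ℕ} (R : Fin n → Fin n → Prop) : Finset (Finset (Fin n)) :=
  (Finset.univ.powersetCard 3).filter fun s : Finset (Fin n) =>
    ¬ ∃ x ∈ s, (∀ y ∈ s, y ≠ x → (¬ R x y ∧ ¬ R y x)) ∨ (∀ y ∈ s, y ≠ x → R x y)

/-- The graph of the non-adjacent pairs of the oriented graph `R` has an induced path `a x y b` or an
induced cycle `a x y b` (it does not matter whether `a`, `b` are adjacent). -/
def NonadjacentPathOrCycle {n : ℕ} (R : Fin n → Fin n → Prop) : Prop :=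
  ∃ a x y b : Fin n, a ≠ x ∧ x ≠ y ∧ y ≠ b ∧ (¬ R a x ∧ ¬ R x a) ∧ (¬ R x y ∧ ¬ R y x) ∧
    (¬ R y b ∧ ¬ R b y) ∧ (R a y ∨ R y a) ∧ (R x b ∨ R b x)

open Pool.Agent.U646.LC (sameT badQ TornIn)

theorem mem_graph {n : ℕ} {col : Fin n → Fin n → ℕ} {s : Finset (Fin n)} (hs : s.card = 3) :
    s ∈ graph col ↔ s ∉ sameT col := by
  unfold graph sameT
  rw [mem_filter, mem_filter]
  have h : s ∈ (univ : Finset (Fin n)).powersetCard 3 := mem_powersetCard.2 ⟨subset_univ _, hs⟩
  constructor
  · rintro ⟨-, h1⟩ ⟨-, x, hx, y, hy, z, hz, hxy, hxz, hyz, h2⟩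
    exact h1 x hx y hy z hz hxy hxz hyz h2
  · intro h1
    refine ⟨h, fun x hx y hy z hz hxy hxz hyz h2 => h1 ⟨h, x, hx, y, hy, z, hz, hxy, hxz, hyz, h2⟩⟩

theorem card_graph {n : ℕ} (col : Fin n → Fin n → ℕ) :
    (graph col).card + (sameT col).card = n.choose 3 := by
  have h1 : graph col = (univ : Finset (Fin n)).powersetCard 3 \ sameT col := by
    ext s
    rw [mem_sdiff]
    constructor
    · intro h
      have h2 := (mem_filter.1 h).1
      exact ⟨h2, (mem_graph (mem_powersetCard.1 h2).2).1 h⟩
    · rintro ⟨h2, h3⟩
      exact (mem_graph (mem_powersetCard.1 h2).2).2 h3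
  have h2 : sameT col ⊆ (univ : Finset (Fin n)).powersetCard 3 := filter_subset _ _
  have h3 := card_sdiff_add_card_eq_card h2
  rw [card_powersetCard, card_univ, Fintype.card_fin] at h3
  rw [h1]
  exact h3

theorem badQ_eq {n : ℕ} (col : Fin n → Fin n → ℕ) : (badQ col).card = bad col := by
  unfold badQ bad
  congr 1
  apply filter_congr
  intro Q _
  constructor
  · rintro (⟨x, hx, y, hy, a, ha, b, hb, h⟩ | h)
    · exact Or.inl ⟨x, hx, y, hy, a, ha, b, hb, h⟩
    · exact Or.inr fun s hs hs3 => (mem_graph hs3).2 (h s hs)
  · rintro (⟨x, hx, y, hy, a, ha, b, hb, h⟩ | h)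
    · exact Or.inl ⟨x, hx, y, hy, a, ha, b, hb, h⟩
    · right
      intro s hs hsT
      have hs3 : s.card = 3 := (mem_powersetCard.1 (mem_filter.1 hsT).1).2
      exact (mem_graph hs3).1 (h s hs hs3) hsT

theorem exact {n : ℕ} (col : Fin n → Fin n → ℕ) (hT : ∀ x y a b, ¬ Torn col x y a b)
    (hK : K43Free (graph col)) : (graph col).card + turan n ≤ n.choose 3 := by
  have h0 : badQ col = ∅ := by
    unfold badQ
    rw [filter_eq_empty_iff]
    rintro Q hQ (⟨x, hx, y, hy, a, ha, b, hb, h⟩ | h)
    · exact hT x y a b h
    · obtain ⟨s, hsQ, hs3, hs⟩ := hK Q (mem_powersetCard.1 hQ).2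
      exact hs ((mem_graph hs3).2 (h s hsQ))
  have h1 := Pool.Agent.U646.LC.exact_of_bad col h0
  have h2 : Pool.Agent.N439.CT.turan n = turan n := rfl
  have h3 := card_graph col
  rw [h2] at h1
  omega

theorem robust (ε : ℝ) (hε : 0 < ε) : ∃ δ : ℝ, 0 < δ ∧ ∀ (n : ℕ) (col : Fin n → Fin n → ℕ),
    (bad col : ℝ) ≤ δ * (n : ℝ) ^ 4 → ((graph col).card : ℝ) ≤ (5 / 54 + ε) * (n : ℝ) ^ 3 := by
  obtain ⟨δ, hδ, h⟩ := Pool.Agent.U646.LC.density ε hε
  refine ⟨δ, hδ, fun n col hb => ?_⟩
  rw [← badQ_eq] at hb
  have h1 := h n col hb
  have h2 : (((graph col).card : ℝ)) + (sameT col).card = (n.choose 3 : ℕ) := by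
    exact_mod_cast card_graph col
  linarith

/-- Turán's construction as a colouring of the pairs: the colour of a pair in one residue class mod 3 is 0,
and the colour of a pair with `x` in a class and `y` in the next one is `x + 1`. -/
def turanColour (n : ℕ) (x y : Fin n) : ℕ :=
  if (y : ℕ) % 3 = (x : ℕ) % 3 then 0
  else if (y : ℕ) % 3 = ((x : ℕ) + 1) % 3 then (x : ℕ) + 1 else (y : ℕ) + 1

theorem turanColour_symm {n : ℕ} (x y : Fin n) : turanColour n x y = turanColour n y x := by
  unfold turanColour
  split_ifs <;> omega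

theorem turanColour_path (n : ℕ) : ¬ MonoPathOrCycle (turanColour n) := by
  rintro ⟨a, x, y, b, hax, hay, hab, hxy, hxb, hyb, h1, h2, h3, h4⟩
  rw [Ne, Fin.ext_iff] at hax hay hab hxy hxb hyb
  unfold turanColour at h1 h2 h3 h4
  split_ifs at h1 h2 h3 h4 <;> omega

open Pool.Agent.Results.MP_466853_co.ColouredTournaments (turanR turanCol coloured turan_free upper lower
  turan_oriented same_or_next)

theorem turanColour_graph (n : ℕ) : graph (turanColour n) = coloured (turanR n) (turanCol n) := by
  unfold graph coloured
  apply filter_congr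
  intro s _
  constructor
  · rintro h ⟨x, hx, y, hy, z, hz, hyz, h1, h2, h3⟩
    have hxy : x ≠ y := by
      rintro rfl
      exact turan_oriented n _ _ h1 h1
    have hxz : x ≠ z := by
      rintro rfl
      exact turan_oriented n _ _ h2 h2
    refine h x hx y hy z hz hxy hxz hyz ?_
    unfold turanColour
    rcases same_or_next h1 h2 h3 with ⟨e1, e2⟩ | ⟨e1, e2⟩
    · rw [if_pos e1, if_pos e2]
    · rw [if_neg (by omega), if_pos e1, if_neg (by omega), if_pos e2]
  · intro h x hx y hy z hz hxy hxz hyz h1
    apply h
    rw [Ne, Fin.ext_iff] at hxy hxz hyz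
    unfold turanColour at h1
    have hyz' : y ≠ z := fun h => hyz (congrArg _ h)
    have hxy' : x ≠ y := fun h => hxy (congrArg _ h)
    have hxz' : x ≠ z := fun h => hxz (congrArg _ h)
    by_cases e1 : (y : ℕ) % 3 = (x : ℕ) % 3
    · rw [if_pos e1] at h1
      have e2 : (z : ℕ) % 3 = (x : ℕ) % 3 := by
        by_contra e2
        rw [if_neg e2] at h1
        split_ifs at h1
      -- three vertices of one class: the largest one
      have key : ∀ u v w : Fin n, (v : ℕ) % 3 = (u : ℕ) % 3 → (w : ℕ) % 3 = (u : ℕ) % 3 →
          (v : ℕ) < u → (w : ℕ) < u →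
          turanR n u v ∧ turanR n u w ∧ turanCol n u v = turanCol n u w := by
        intro u v w f1 f2 f3 f4
        refine ⟨Or.inr ⟨f1, f3⟩, Or.inr ⟨f2, f4⟩, ?_⟩
        unfold turanCol
        rw [if_pos f1, if_pos f2]
      rcases Nat.lt_or_ge (x : ℕ) y with g1 | g1
      · rcases Nat.lt_or_ge (y : ℕ) z with g2 | g2
        · exact ⟨z, hz, x, hx, y, hy, hxy', key z x y (by omega) (by omega) (by omega) (by omega)⟩
        · exact ⟨y, hy, x, hx, z, hz, hxz', key y x z (by omega) (by omega) (by omega) (by omega)⟩
      · rcases Nat.lt_or_ge (x : ℕ) z with g2 | g2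
        · exact ⟨z, hz, x, hx, y, hy, hxy', key z x y (by omega) (by omega) (by omega) (by omega)⟩
        · exact ⟨x, hx, y, hy, z, hz, hyz', key x y z (by omega) (by omega) (by omega) (by omega)⟩
    · rw [if_neg e1] at h1
      have e2 : ¬ (z : ℕ) % 3 = (x : ℕ) % 3 := by
        intro e2
        rw [if_pos e2] at h1
        split_ifs at h1
      rw [if_neg e2] at h1
      have e3 : (y : ℕ) % 3 = ((x : ℕ) + 1) % 3 ∧ (z : ℕ) % 3 = ((x : ℕ) + 1) % 3 := by
        split_ifs at h1 with g1 g2 g2 <;> first | exact ⟨g1, g2⟩ | omega
      refine ⟨x, hx, y, hy, z, hz, hyz', Or.inl e3.1, Or.inl e3.2, ?_⟩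
      unfold turanCol
      rw [if_neg e1, if_neg e2]

theorem rainbow (n : ℕ) : IsGreatest {m : ℕ | ∃ c : Fin n → Fin n → ℕ, (∀ x y, c x y = c y x) ∧
    ¬ MonoPathOrCycle c ∧ K43Free (graph c) ∧ (graph c).card = m} (n.choose 3 - turan n) := by
  constructor
  · refine ⟨turanColour n, turanColour_symm, turanColour_path n, ?_, ?_⟩
    · rw [turanColour_graph]
      exact turan_free n
    · rw [turanColour_graph]
      have h1 := upper (turanR n) (turanCol n) (turan_oriented n) (turan_free n)
      have h2 := lower n
      have h3 : Pool.Agent.Results.MP_466853_co.ColouredTournaments.turan n = turan n := rfl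
      rw [h3] at h1 h2
      omega
  · rintro m ⟨c, hc, hM, hK, rfl⟩
    have h := exact c ?_ hK
    · omega
    · rintro x y a b ⟨hxy, hax, hay, hbx, hby, h1, h2, h3, h4⟩
      apply hM
      have hab : a ≠ b := by
        rintro rfl
        exact h2 h3
      refine ⟨a, x, y, b, hax, hay, hab, hxy, hbx.symm, hby.symm, ?_, ?_, ?_, ?_⟩
      · rw [hc a x]
        exact h1
      · rw [h3, hc y x]
      · rw [hc a y, hc x y]
        exact h2
      · exact h4

/-- the local colouring of an oriented graph -/
noncomputable def orientedColour {n : ℕ} (R : Fin n → Fin n → Prop) (x y : Fin n) : ℕ :=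
  if R x y then 1 else if R y x then (y : ℕ) + 2 else 0

theorem construction_eq {n : ℕ} (R : Fin n → Fin n → Prop) :
    construction R = graph (orientedColour R) := by
  unfold construction graph
  apply filter_congr
  intro s hs
  have hs3 : s.card = 3 := (mem_powersetCard.1 hs).2
  constructor
  · intro h x hx y hy z hz hxy hxz hyz h1
    apply h
    have hyz' : (y : ℕ) ≠ z := fun h => hyz (Fin.ext h)
    have hsx : ∀ w ∈ s, w ≠ x → w = y ∨ w = z := by
      have h2 : {x, y, z} = s := by
        apply eq_of_subset_of_card_le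
        · intro w hw
          simp only [mem_insert, mem_singleton] at hw
          rcases hw with rfl | rfl | rfl <;> assumption
        · rw [hs3, card_insert_of_notMem, card_insert_of_notMem, card_singleton] <;>
            simp [hxy, hxz, hyz]
      intro w hw hwx
      rw [← h2] at hw
      simp only [mem_insert, mem_singleton] at hw
      exact hw.resolve_left hwx
    unfold orientedColour at h1
    refine ⟨x, hx, ?_⟩
    by_cases g1 : R x y
    · rw [if_pos g1] at h1
      have g2 : R x z := by
        by_contra g2
        rw [if_neg g2] at h1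
        split_ifs at h1
        omega
      right
      intro w hw hwx
      rcases hsx w hw hwx with rfl | rfl
      · exact g1
      · exact g2
    · rw [if_neg g1] at h1
      by_cases g2 : R y x
      · rw [if_pos g2] at h1
        split_ifs at h1 <;> omega
      · rw [if_neg g2] at h1
        have g3 : ¬ R x z ∧ ¬ R z x := by
          split_ifs at h1 with k1 k2
          exact ⟨k1, k2⟩
        left
        intro w hw hwx
        rcases hsx w hw hwx with rfl | rfl
        · exact ⟨g1, g2⟩
        · exact g3
  · rintro h ⟨x, hx, h1⟩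
    have h2 : (s.erase x).card = 2 := by
      rw [card_erase_of_mem hx, hs3]
    obtain ⟨y, z, hyz, he⟩ := card_eq_two.1 h2
    have hy : y ∈ s.erase x := by
      rw [he]
      simp
    have hz : z ∈ s.erase x := by
      rw [he]
      simp
    rw [mem_erase] at hy hz
    refine h x hx y hy.2 z hz.2 hy.1.symm hz.1.symm hyz ?_
    unfold orientedColour
    rcases h1 with h1 | h1
    · rw [if_neg (h1 y hy.2 hy.1).1, if_neg (h1 y hy.2 hy.1).2, if_neg (h1 z hz.2 hz.1).1,
        if_neg (h1 z hz.2 hz.1).2]
    · rw [if_pos (h1 y hy.2 hy.1), if_pos (h1 z hz.2 hz.1)]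

theorem c4free {n : ℕ} {R : Fin n → Fin n → Prop} (h : NoInducedC4 R) :
    Pool.Agent.H122R2.FdF.C4Free R := by
  intro a b c d h1 h2 h3 h4
  by_contra hne
  push Not at hne
  exact h ⟨a, b, c, d, h1, h2, h3, h4, hne.1, hne.2.1, hne.2.2.1, hne.2.2.2⟩

theorem fonDerFlaass {n : ℕ} (R : Fin n → Fin n → Prop) (hO : IsOriented R) (hC : NoInducedC4 R)
    (hP : ¬ NonadjacentPathOrCycle R) :
    K43Free (construction R) ∧ (construction R).card + turan n ≤ n.choose 3 := by
  have hK : K43Free (construction R) := by
    intro S hS
    obtain ⟨s, hsS, hs, hx⟩ := Pool.Agent.H122R2.FdF.fdf_four R hO (c4free hC) S hS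
    refine ⟨s, hsS, hs, fun hmem => ?_⟩
    exact (mem_filter.1 hmem).2 hx
  refine ⟨hK, ?_⟩
  rw [construction_eq] at hK ⊢
  refine exact _ ?_ hK
  rintro x y a b ⟨hxy, hax, hay, hbx, hby, h1, h2, h3, h4⟩
  have hax' : (a : ℕ) ≠ x := fun h => hax (Fin.ext h)
  have hay' : (a : ℕ) ≠ y := fun h => hay (Fin.ext h)
  have hbx' : (b : ℕ) ≠ x := fun h => hbx (Fin.ext h)
  have hby' : (b : ℕ) ≠ y := fun h => hby (Fin.ext h)
  unfold orientedColour at h1 h2 h3 h4
  by_cases g1 : R x y
  · have g1' := hO x y g1
    rw [if_neg g1', if_pos g1] at h3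
    split_ifs at h3 <;> omega
  · by_cases g2 : R y x
    · rw [if_neg g1, if_pos g2] at h1
      split_ifs at h1 <;> omega
    · rw [if_neg g1, if_neg g2] at h1 h4
      rw [if_neg g2, if_neg g1] at h2 h3
      apply hP
      refine ⟨a, x, y, b, hax, hxy, hby.symm, ?_, ⟨g1, g2⟩, ?_, ?_, ?_⟩
      · split_ifs at h1 with k1 k2
        exact ⟨k2, k1⟩
      · split_ifs at h3 with k1 k2
        exact ⟨k1, k2⟩
      · by_contra hcon
        push Not at hcon
        apply h2
        rw [if_neg hcon.2, if_neg hcon.1]
      · by_contra hcon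
        push Not at hcon
        apply h4
        rw [if_neg hcon.1, if_neg hcon.2]

/-- (1) A `K_4^3`-free 3-graph of a local colouring without torn pairs has at most as many edges as Turán's
construction. (2) The density is at most `5/9 + ε` if at most `δ n^4` four-element sets contain a torn pair
with its witnesses or span all four triples. (3) If no four vertices have only rainbow triangles and no
colour class has an induced path or cycle with four vertices, then the largest possible number of rainbow
triangles is the number of edges of Turán's construction. (4) The exact bound for the Fon-der-Flaass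
construction if the graph of non-adjacent pairs has no induced path or cycle with four vertices. -/
theorem result :
    (∀ (n : ℕ) (col : Fin n → Fin n → ℕ), (∀ x y a b, ¬ Torn col x y a b) → K43Free (graph col) →
      (graph col).card + turan n ≤ n.choose 3) ∧
    (∀ ε : ℝ, 0 < ε → ∃ δ : ℝ, 0 < δ ∧ ∀ (n : ℕ) (col : Fin n → Fin n → ℕ),
      (bad col : ℝ) ≤ δ * (n : ℝ) ^ 4 → ((graph col).card : ℝ) ≤ (5 / 54 + ε) * (n : ℝ) ^ 3) ∧
    (∀ n : ℕ, IsGreatest {m : ℕ | ∃ c : Fin n → Fin n → ℕ, (∀ x y, c x y = c y x) ∧
      ¬ MonoPathOrCycle c ∧ K43Free (graph c) ∧ (graph c).card = m} (n.choose 3 - turan n)) ∧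
    (∀ (n : ℕ) (R : Fin n → Fin n → Prop), IsOriented R → NoInducedC4 R →
      ¬ NonadjacentPathOrCycle R →
      K43Free (construction R) ∧ (construction R).card + turan n ≤ n.choose 3) :=
  ⟨fun _ col hT hK => exact col hT hK, robust, rainbow, fun _ R hO hC hP => fonDerFlaass R hO hC hP⟩

end Pool.Agent.Results.MP_f1799f_co.RainbowTriangles
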